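import Pool.Agent.Hx88.SM.Rel
import Pool.Agent.TH44.SS.Times
import Pool.Agent.Y1.TS.Main

/-!
# Semisimplicity for the products of abelian varieties of maximal angle rank with arbitrary varieties
-/

set_option autoImplicit false

namespace Pool.Agent.Hx88.SM

open NumberField Finset Module IntermediateField Pool.Agent.W484.AA Pool.Agent.Y137.MV
  Pool.Agent.Y1.CT Pool.Agent.TH44.SS

/-- `F` is diagonalizable and its eigenvalues are conjugates of the numbers `π i`: `V` is the first
cohomology of an abelian variety over the field with `q` elements, isogenous to a product of powers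
of the abelian varieties with the Weil numbers `π i`. -/
def IsFrobOf {I : Type} {K : I → Type} [∀ i, Field (K i)] (π : ∀ i, K i) {V : Type}
    [AddCommGroup V] [Module ℂ V] (F : V →ₗ[ℂ] V) : Prop :=
  Submodule.span ℂ {v : V | ∃ i, ∃ φ : K i →+* ℂ, F v = φ (π i) • v} = ⊤

/-- Let `A` be an abelian variety over the field with `Q = q ^ s` elements, isogenous to a product
of powers of abelian varieties coming from the field with `q` elements, whose Frobenius
endomorphisms have the eigenvalues `φ (π i)`, and let `U` be any variety over the field with `Q`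
elements, such that the eigenvalues of the Frobenius endomorphism on its cohomology are not zero
and unrelated to the fields `K i`. Then: if for some `i` the eigenvalue `Q ^ i` of Frobenius on the
cohomology of degree `2 i` of `A × U` is semisimple then this is true for `U`; and it is true for
`A × U` and `i` if it is true for `U` and all `j ≤ i`. -/
def SemisimpleTimes (q : ℕ) {I : Type} (K : I → Type) [∀ i, Field (K i)] (π : ∀ i, K i) : Prop :=
  ∀ (V : Type) [AddCommGroup V] [Module ℂ V] [FiniteDimensional ℂ V] (F : V →ₗ[ℂ] V),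
    IsFrobOf π F → ∀ s : ℕ, 0 < s →
    ∀ (H : ℕ → Type) [∀ m, AddCommGroup (H m)] [∀ m, Module ℂ (H m)] (G : ∀ m, H m →ₗ[ℂ] H m),
      (∀ m ρ, Module.End.HasEigenvalue (G m) ρ → Unrelated K ρ) → ∀ i : ℕ,
      (SemisimpleAt (total (F ^ s) G (2 * i)) (((q : ℂ) ^ s) ^ i) →
        SemisimpleAt (G (2 * i)) (((q : ℂ) ^ s) ^ i)) ∧
      ((∀ j ≤ i, SemisimpleAt (G (2 * j)) (((q : ℂ) ^ s) ^ j)) →
        SemisimpleAt (total (F ^ s) G (2 * i)) (((q : ℂ) ^ s) ^ i))

variable {I : Type} [Fintype I] {K : I → Type} [∀ i, Field (K i)] [∀ i, NumberField (K i)]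
  [∀ i, IsCMField (K i)]

theorem span_frob {π : ∀ i, K i} {V : Type} [AddCommGroup V] [Module ℂ V] {F : V →ₗ[ℂ] V}
    (hF : IsFrobOf π F) (s : ℕ) :
    Submodule.span ℂ {v : V | ∃ y : Σ i, (K i →+* ℂ), (F ^ s) v = (y.2 (π y.1)) ^ s • v} = ⊤ := by
  rw [eq_top_iff, ← hF]
  refine Submodule.span_mono ?_
  rintro v ⟨i, φ, hv⟩
  exact ⟨⟨i, φ⟩, Pool.Agent.W484.BB.pow_apply_eigen F v _ hv s⟩

/-- **The semisimplicity.** -/
theorem semisimpleTimes_of_angle {p a : ℕ} (hp : p ≠ 0) {π : ∀ i, K i}
    (hw : ∀ i, π i * IsCMField.complexConj (K i) (π i) = (p : K i) ^ a)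
    (hang : MaximalAngleRank (p ^ a) π) : SemisimpleTimes (p ^ a) K π := by
  intro V _ _ _ F hF s hs H _ _ G hG i
  have hQ : (((p ^ a : ℕ) : ℂ)) ^ s ≠ 0 :=
    pow_ne_zero _ (by exact_mod_cast pow_ne_zero a hp)
  have hπ0 : ∀ i, π i ≠ 0 := by
    intro i h0
    have h1 := hw i
    rw [h0, zero_mul] at h1
    exact pow_ne_zero a (Nat.cast_ne_zero.2 hp) h1.symm
  have hwc : ∀ i (φ : K i →+* ℂ), φ (π i) * ComplexEmbedding.conjugate φ (π i) =
      ((p ^ a : ℕ) : ℂ) := by
    intro i φ
    have h1 := congrArg φ (hw i)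
    rw [map_mul, IsCMField.complexEmbedding_complexConj, map_pow, map_natCast] at h1
    rw [ComplexEmbedding.conjugate_coe_eq, h1]
    push_cast
    rfl
  constructor
  · intro h1
    have h2 := (semisimpleAt_total (F ^ s) G (2 * i) _).1 h1 ⟨0, by omega⟩
    exact semisimpleAt_zero (F ^ s) (G (2 * i)) _ h2
  · intro h1
    rw [semisimpleAt_total]
    rintro ⟨n, hn⟩
    have h3 := semisimpleAt_product (F ^ s)
      (fun y : Σ i, (K i →+* ℂ) => (y.2 (π y.1)) ^ s) (span_frob hF s)
      ((((p ^ a : ℕ) : ℂ)) ^ s) hQ (G (2 * i - n))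
      (fun ρ hρ => exactPair_angle hwc hang hπ0 s hs ρ (hG _ ρ hρ)) n (i : ℤ) (by
        rintro k rfl
        have hk : k ≤ i := by omega
        have h4 := h1 (i - k) (Nat.sub_le _ _)
        have h5 : ∀ m, m = 2 * (i - k) →
            SemisimpleAt (G m) (((((p ^ a : ℕ) : ℂ)) ^ s) ^ (i - k)) := by
          rintro _ rfl
          exact h4
        have h6 : ((((p ^ a : ℕ) : ℂ)) ^ s) ^ ((i : ℤ) - k) =
            ((((p ^ a : ℕ) : ℂ)) ^ s) ^ (i - k) := by
          rw [← Nat.cast_sub hk, zpow_natCast]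
        rw [h6]
        exact h5 _ (by omega))
    rw [zpow_natCast] at h3
    exact h3

end Pool.Agent.Hx88.SM
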