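import Pool.Agent.W484.AA.Mixed
import Pool.Agent.Y137.MV.Defs
import Pool.Agent.Y1.CT.UnrelDefs

/-!
# Products of Weil numbers of maximal angle rank and unrelated numbers
-/

set_option autoImplicit false

namespace Pool.Agent.Hx88.SM

open NumberField Finset Module Pool.Agent.W484.AA Pool.Agent.Y137.MV Pool.Agent.Y1.CT

variable {I : Type} [Fintype I] {K : I → Type} [∀ i, Field (K i)] [∀ i, NumberField (K i)]
  [∀ i, IsCMField (K i)]

/-- the product over a list, as a product over the index set -/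
theorem prod_list {Y : Type} [Fintype Y] [DecidableEq Y] (w : Y → ℂ) (l : List Y) :
    (l.map w).prod = ∏ y, w y ^ (l.count y) := by
  induction l with
  | nil => simp
  | cons a l ih =>
    rw [List.map_cons, List.prod_cons, ih]
    have h1 : ∀ y, w y ^ (List.count y (a :: l)) = w y ^ (l.count y) * (if y = a then w y else 1) := by
      intro y
      by_cases h : y = a
      · subst h
        rw [List.count_cons_self, if_pos rfl, pow_succ]
      · rw [List.count_cons_of_ne (Ne.symm h), if_neg h, mul_one]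
    rw [Finset.prod_congr rfl fun y _ => h1 y, Finset.prod_mul_distrib, Finset.prod_ite_eq']
    rw [if_pos (Finset.mem_univ a), mul_comm]

/-- **The relations.** -/
theorem exactPair_angle {q : ℕ} {π : ∀ i, K i}
    (hw : ∀ i (φ : K i →+* ℂ), φ (π i) * ComplexEmbedding.conjugate φ (π i) = q)
    (hang : MaximalAngleRank q π) (hπ : ∀ i, π i ≠ 0) (s : ℕ) (hs : 0 < s) (ρ : ℂ)
    (hρ : Y1.CT.Unrelated K ρ) :
    ExactPair (fun y : Σ i, (K i →+* ℂ) => (y.2 (π y.1)) ^ s) ((q : ℂ) ^ s) ρ := by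
  classical
  intro n c N hN hn ys hlen hrel hpw
  obtain ⟨hρ0, hρ⟩ := hρ
  let Y : Type := Σ i, (K i →+* ℂ)
  let v : Y → ℂ := fun y => y.2 (π y.1)
  have hv : ∀ y : Y, v y ≠ 0 := fun y => (_root_.map_ne_zero y.2).2 (hπ y.1)
  let cnt : Y → ℤ := fun y => (ys.count y : ℤ)
  let bar : Y → Y := fun y => ⟨y.1, ComplexEmbedding.conjugate y.2⟩
  -- the relation
  have h1 : (∏ y : Y, v y ^ ((s : ℤ) * cnt y)) ^ N * ρ ^ N = (((q : ℂ) ^ s) ^ c) ^ N := by
    rw [← hrel, ← mul_pow, prod_list (Y := Y) (fun y : Y => (y.2 (π y.1)) ^ s) ys]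
    congr 2
    refine Finset.prod_congr rfl fun y _ => ?_
    rw [← pow_mul, ← Nat.cast_mul, zpow_natCast]
  have hinv : ∀ τ : ℂ ≃+* ℂ, (∃ m : ℕ, 0 < m ∧ τ (ρ ^ m) = ρ ^ m) → ∀ i (φ : K i →+* ℂ),
      cnt ⟨i, φ⟩ - cnt ⟨i, (τ : ℂ →+* ℂ).comp φ⟩ =
        cnt ⟨i, ComplexEmbedding.conjugate φ⟩ -
          cnt ⟨i, ComplexEmbedding.conjugate ((τ : ℂ →+* ℂ).comp φ)⟩ := by
    rintro τ ⟨m, hm, hτ⟩ i φ
    let tr : Y ≃ Y :=
      { toFun := fun y => ⟨y.1, (τ : ℂ →+* ℂ).comp y.2⟩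
        invFun := fun y => ⟨y.1, (τ.symm : ℂ →+* ℂ).comp y.2⟩
        left_inv := fun y => congrArg (fun ψ => (⟨y.1, ψ⟩ : Y)) (RingHom.ext fun x =>
          τ.symm_apply_apply (y.2 x))
        right_inv := fun y => congrArg (fun ψ => (⟨y.1, ψ⟩ : Y)) (RingHom.ext fun x =>
          τ.apply_symm_apply (y.2 x)) }
    have h2 : (∏ y : Y, v y ^ ((s : ℤ) * cnt y)) ^ (N * m) * ρ ^ (N * m) =
        (((q : ℂ) ^ s) ^ c) ^ (N * m) := by
      rw [pow_mul, pow_mul, pow_mul, ← mul_pow, h1]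
    have h3 := congrArg τ h2
    have h4 : τ (ρ ^ (N * m)) = ρ ^ (N * m) := by
      rw [mul_comm, pow_mul, map_pow, hτ]
    have h5 : τ ((((q : ℂ) ^ s) ^ c) ^ (N * m)) = (((q : ℂ) ^ s) ^ c) ^ (N * m) := by
      rw [map_pow, map_zpow₀, map_pow, map_natCast]
    have h6 : τ ((∏ y : Y, v y ^ ((s : ℤ) * cnt y)) ^ (N * m)) =
        (∏ y : Y, v y ^ ((s : ℤ) * cnt (tr.symm y))) ^ (N * m) := by
      rw [map_pow, map_prod]
      congr 1
      refine Fintype.prod_equiv tr _ _ fun y => ?_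
      rw [Equiv.symm_apply_apply, map_zpow₀]
      rfl
    rw [map_mul, h4, h5, h6] at h3
    have h7 : (∏ y : Y, v y ^ ((s : ℤ) * cnt (tr.symm y))) ^ (N * m) =
        (∏ y : Y, v y ^ ((s : ℤ) * cnt y)) ^ (N * m) :=
      mul_right_cancel₀ (pow_ne_zero _ hρ0) (h3.trans h2.symm)
    have h8 : ∏ y : Y, v y ^ ((s : ℤ) * (N * m : ℕ) * (cnt (tr.symm y) - cnt y)) =
        (q : ℂ) ^ (0 : ℤ) := by
      rw [zpow_zero]
      have h9 : ∀ y : Y, v y ^ ((s : ℤ) * (N * m : ℕ) * (cnt (tr.symm y) - cnt y)) =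
          (v y ^ ((s : ℤ) * cnt (tr.symm y))) ^ (N * m) /
            (v y ^ ((s : ℤ) * cnt y)) ^ (N * m) := by
        intro y
        rw [← zpow_natCast, ← zpow_natCast, ← zpow_mul, ← zpow_mul, ← zpow_sub₀ (hv y)]
        congr 1
        ring
      rw [Finset.prod_congr rfl fun y _ => h9 y, Finset.prod_div_distrib, Finset.prod_pow,
        Finset.prod_pow, h7]
      exact div_self (pow_ne_zero _ (Finset.prod_ne_zero_iff.2 fun y _ => zpow_ne_zero _ (hv y)))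
    have h10 := hang 0 _ h8 i ((τ : ℂ →+* ℂ).comp φ)
    have h11 : ((s : ℤ) * (N * m : ℕ)) ≠ 0 := by
      exact_mod_cast (Nat.mul_pos hs (Nat.mul_pos hN hm)).ne'
    have h12 := mul_left_cancel₀ h11 h10
    have e1 : tr.symm ⟨i, (τ : ℂ →+* ℂ).comp φ⟩ = ⟨i, φ⟩ := tr.symm_apply_apply ⟨i, φ⟩
    have e2 : tr.symm ⟨i, ComplexEmbedding.conjugate ((τ : ℂ →+* ℂ).comp φ)⟩ =
        ⟨i, ComplexEmbedding.conjugate φ⟩ := by
      rw [Equiv.symm_apply_eq]
      have h13 : ∀ x, ComplexEmbedding.conjugate ((τ : ℂ →+* ℂ).comp φ) x =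
          ((τ : ℂ →+* ℂ).comp (ComplexEmbedding.conjugate φ)) x := by
        intro x
        change _ = τ (ComplexEmbedding.conjugate φ x)
        rw [ComplexEmbedding.conjugate_coe_eq, ComplexEmbedding.conjugate_coe_eq,
          ← IsCMField.complexEmbedding_complexConj, ← IsCMField.complexEmbedding_complexConj]
        rfl
      exact congrArg (fun ψ => (⟨i, ψ⟩ : Y)) (RingHom.ext h13)
    rw [e1, e2] at h12
    exact h12
  -- the numbers of the conjugates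
  have hodd : ∀ i (φ : K i →+* ℂ), cnt ⟨i, φ⟩ = cnt ⟨i, ComplexEmbedding.conjugate φ⟩ := by
    intro i
    have h2 := hρ i (fun φ => ((cnt ⟨i, φ⟩ - cnt ⟨i, ComplexEmbedding.conjugate φ⟩ : ℤ) : ℚ))
      (fun φ => by
        have h3 : ComplexEmbedding.conjugate (ComplexEmbedding.conjugate φ) = φ := by
          ext x
          simp
        rw [h3]
        push_cast
        ring)
      (fun τ hτ φ => by
        have h3 := hinv τ hτ i φ
        have h4 : cnt ⟨i, (τ : ℂ →+* ℂ).comp φ⟩ -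
            cnt ⟨i, ComplexEmbedding.conjugate ((τ : ℂ →+* ℂ).comp φ)⟩ =
            cnt ⟨i, φ⟩ - cnt ⟨i, ComplexEmbedding.conjugate φ⟩ := by linarith
        rw [h4])
    intro φ
    have h3 := congrFun h2 φ
    have h4 : ((cnt ⟨i, φ⟩ - cnt ⟨i, ComplexEmbedding.conjugate φ⟩ : ℤ) : ℚ) = 0 := h3
    have h5 : cnt ⟨i, φ⟩ - cnt ⟨i, ComplexEmbedding.conjugate φ⟩ = 0 := by exact_mod_cast h4
    linarith
  -- the pair
  obtain ⟨y₀, hy₀⟩ := List.exists_mem_of_length_pos (l := ys) (by omega)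
  have h2 : 0 < cnt (bar y₀) := by
    have h3 : cnt (bar y₀) = cnt y₀ := (hodd y₀.1 y₀.2).symm
    rw [h3]
    exact Int.natCast_pos.2 (List.count_pos_iff.2 hy₀)
  have hy₁ : bar y₀ ∈ ys := List.count_pos_iff.1 (Int.natCast_pos.1 h2)
  have hne : y₀ ≠ bar y₀ := by
    intro h
    have h4 : y₀ = ⟨y₀.1, ComplexEmbedding.conjugate y₀.2⟩ := h
    have h5 : y₀.2 = ComplexEmbedding.conjugate y₀.2 := by
      obtain ⟨i, φ⟩ := y₀
      exact eq_of_heq (Sigma.mk.inj h4).2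
    have h6 : ¬ ComplexEmbedding.IsReal y₀.2 := IsTotallyComplex.complexEmbedding_not_isReal _
    exact h6 h5.symm
  have hsymm : Std.Symm (fun y y' : Y => (y.2 (π y.1)) ^ s * (y'.2 (π y'.1)) ^ s ≠
      (q : ℂ) ^ s) := ⟨by
    intro x y h h'
    exact h (by rw [mul_comm]; exact h')⟩
  refine hpw.forall hy₀ hy₁ hne ?_
  change (y₀.2 (π y₀.1)) ^ s * (ComplexEmbedding.conjugate y₀.2 (π y₀.1)) ^ s = _
  rw [← mul_pow, hw]

end Pool.Agent.Hx88.SM
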